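import Pool.Agent.helper1.CD.Spec

/-!
# Row CLO of project CD (MP_2e0e07_nt): the closure of a set of Frobenius elements
-/

set_option autoImplicit false

open NumberField IsDedekindDomain Complex Pool.Agent.CH Pool.Agent.GK

namespace Pool.Agent.CD

/-- only finitely many places are ramified -/
theorem CLO_ram (K L : Type) [Field K] [NumberField K] [Field L] [NumberField L] [Algebra K L] :
    {v : Pl K | ∃ P : Ideal (𝓞 L), P.IsPrime ∧ P.under (𝓞 K) = v.asIdeal ∧ P ∣ differentIdeal (𝓞 K) (𝓞 L)}.Finite := by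
  have hD : differentIdeal (𝓞 K) (𝓞 L) ≠ ⊥ := differentIdeal_ne_bot
  have hfin := Ideal.finite_factors hD
  have hA : {I : Ideal (𝓞 K) | ∃ w : HeightOneSpectrum (𝓞 L), w.asIdeal ∣ differentIdeal (𝓞 K) (𝓞 L) ∧ I = w.asIdeal.under (𝓞 K)}.Finite := by
    refine (hfin.image fun w : HeightOneSpectrum (𝓞 L) => w.asIdeal.under (𝓞 K)).subset ?_
    rintro I ⟨w, hw, rfl⟩
    exact ⟨w, hw, rfl⟩
  refine (hA.preimage (f := fun v : Pl K => v.asIdeal) (fun v _ v' _ h => HeightOneSpectrum.ext h)).subset ?_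
  rintro v ⟨P, hP, hPv, hPD⟩
  have hP0 : P ≠ ⊥ := by
    rintro rfl
    exact hD (zero_dvd_iff.1 hPD)
  exact ⟨⟨P, hP, hP0⟩, hPD, hPv.symm⟩

/-- comparison of the growth -/
theorem CLO_lim (f g : ℝ → ℝ) (c x A : ℝ) (hf : ∀ δ : ℝ, 0 < δ → ∃ s : ℝ, 1 < s ∧ s < 1 + δ ∧ c * (-Real.log (s - 1)) ≤ f s)
    (hg : ∀ ε : ℝ, 0 < ε → ∃ δ : ℝ, 0 < δ ∧ ∀ s : ℝ, 1 < s → s < 1 + δ → g s ≤ (x + ε) * (-Real.log (s - 1)))
    (hA : 0 ≤ A) (hfg : ∀ s : ℝ, 1 < s → f s ≤ g s + A) : c ≤ x := by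
  refine le_of_forall_pos_le_add fun ε hε => ?_
  obtain ⟨δ, hδ, hgδ⟩ := hg (ε / 2) (by positivity)
  obtain ⟨M, hM⟩ : ∃ M : ℝ, M = 2 * A / ε + 1 := ⟨_, rfl⟩
  have hM0 : 0 < M := by rw [hM]; positivity
  obtain ⟨s, hs1, hs2, hs3⟩ := hf (min δ (Real.exp (-M))) (lt_min hδ (Real.exp_pos _))
  have hs4 : s < 1 + δ := hs2.trans_le (by have := min_le_left δ (Real.exp (-M)); linarith)
  have hs5 : s - 1 < Real.exp (-M) := by have := min_le_right δ (Real.exp (-M)); linarith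
  obtain ⟨l, hl⟩ : ∃ l : ℝ, l = -Real.log (s - 1) := ⟨_, rfl⟩
  have hlM : M ≤ l := by
    have h1 := Real.log_lt_log (by linarith) hs5
    rw [Real.log_exp] at h1
    rw [hl]
    linarith
  have hl0 : 0 < l := hM0.trans_le hlM
  have h1 := hgδ s hs1 hs4
  have h2 := hfg s hs1
  rw [← hl] at h1 hs3
  have h3 : A ≤ ε / 2 * l := by
    have h4 : ε / 2 * M ≤ ε / 2 * l := mul_le_mul_of_nonneg_left hlM (by positivity)
    have h5 : ε / 2 * M = A + ε / 2 := by rw [hM]; field_simp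
    linarith
  have h6 : c * l ≤ (x + ε) * l := by linarith
  exact le_of_mul_le_mul_right h6 hl0

theorem CLO (hUPP : UPP_stmt) (hHAR : HAR_stmt) (hDSL : DSL_stmt) (hFXU : FXU_stmt) (hLIF : LIF_stmt) : CLO_stmt := by
  classical
  intro K _ _ _ _ μ _ S c hS T hT
  obtain ⟨C, hC⟩ : ∃ C, C = closure {s : GalK K | ∃ v ∈ S, v ∉ T ∧ s ∈ frob K v} := ⟨_, rfl⟩
  rw [← hC]
  refine le_of_forall_pos_le_add fun ε hε => ?_
  obtain ⟨U, hUo, hUn, hUc⟩ := hHAR (GalK K) μ C (by rw [hC]; exact isClosed_closure) ε hε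
  obtain ⟨L, hfin, hgal, hrank, hUL⟩ := hFXU K U hUo hUn
  have hnf : NumberField L := NumberField.of_module_finite K L
  obtain ⟨X, hX⟩ : ∃ X : Set (L ≃ₐ[K] L), X = (fun g : GalK K => AlgEquiv.restrictNormalHom L g) '' C := ⟨_, rfl⟩
  have hN0 : 0 < Module.finrank K L := Module.finrank_pos
  have hidx : U.index ≠ 0 := by rw [← hrank]; exact hN0.ne'
  have hrestr : ∀ (g : GalK K) (x : L), ((AlgEquiv.restrictNormalHom L g x : L) : AlgebraicClosure K) = g x := fun g x =>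
    AlgEquiv.restrictNormalHom_apply L g x
  -- the number of elements of `X`
  have hker : ∀ g ∈ U, AlgEquiv.restrictNormalHom L g = 1 := by
    intro g hg
    apply AlgEquiv.ext
    intro x
    apply Subtype.ext
    rw [hrestr]
    exact (hUL g).1 hg x x.2
  have hXc : Nat.card X ≤ Nat.card ((fun g : GalK K => (g : GalK K ⧸ U)) '' C) := by
    have hquot : Finite (GalK K ⧸ U) := by
      have : U.FiniteIndex := ⟨hidx⟩
      exact Subgroup.finite_quotient_of_finiteIndex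
    have h1 : X = (QuotientGroup.lift U (AlgEquiv.restrictNormalHom (F := K) (K₁ := AlgebraicClosure K) L) hker) '' ((fun g : GalK K => (g : GalK K ⧸ U)) '' C) := by
      rw [hX, Set.image_image]
      rfl
    rw [h1, Nat.card_coe_set_eq, Nat.card_coe_set_eq]
    exact Set.ncard_image_le (Set.toFinite _)
  -- the inclusion
  obtain ⟨R, hR⟩ : ∃ R : Set (Pl K), R = {v : Pl K | ∃ P : Ideal (𝓞 L), P.IsPrime ∧ P.under (𝓞 K) = v.asIdeal ∧ P ∣ differentIdeal (𝓞 K) (𝓞 L)} := ⟨_, rfl⟩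
  have hRf : R.Finite := by rw [hR]; exact CLO_ram K L
  have hsub : S ⊆ Ap K L X ∪ ((T ∪ R) \ Ap K L X) := by
    intro v hv
    by_cases hvA : v ∈ Ap K L X
    · exact Or.inl hvA
    · refine Or.inr ⟨?_, hvA⟩
      by_contra hcon
      apply hvA
      intro P σ hP hPv hfr
      obtain ⟨g, hg⟩ := AlgEquiv.restrictNormalHom_surjective (F := K) (E := AlgebraicClosure K) (K₁ := L) σ
      have hdiff : ¬ P ∣ differentIdeal (𝓞 K) (𝓞 L) := fun h => hcon (Or.inr (by rw [hR]; exact ⟨P, hP, hPv, h⟩))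
      obtain ⟨s, hs, hsg⟩ := hLIF K L g P v hP hdiff hPv (by rw [hg]; exact hfr)
      rw [hX]
      refine ⟨s, ?_, ?_⟩
      · rw [hC]
        exact subset_closure ⟨v, hv, fun h => hcon (Or.inl h), hs⟩
      · show AlgEquiv.restrictNormalHom L s = σ
        rw [← hg]
        apply AlgEquiv.ext
        intro x
        apply Subtype.ext
        rw [hrestr, hrestr]
        exact hsg x x.2
  have hle : ∀ s : ℝ, 1 < s → DS K S s ≤ DS K (Ap K L X) s + ((T ∪ R).ncard : ℝ) := by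
    intro s hs
    obtain ⟨-, d2, d3, d4⟩ := hDSL K s hs
    have e1 := d2 _ _ hsub
    rw [d3 _ _ Set.disjoint_sdiff_right] at e1
    have e2 := d4 ((T ∪ R) \ Ap K L X) ((hT.union hRf).sdiff)
    have e3 : (((T ∪ R) \ Ap K L X).ncard : ℝ) ≤ ((T ∪ R).ncard : ℝ) := by
      exact_mod_cast Set.ncard_le_ncard Set.sdiff_subset (hT.union hRf)
    linarith
  have hcx : c ≤ (Nat.card X : ℝ) / Module.finrank K L :=
    CLO_lim (DS K S) (DS K (Ap K L X)) c _ _ hS (hUPP K L X) (Nat.cast_nonneg _) hle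
  have hμ0 : 0 ≤ μ.real Set.univ := MeasureTheory.measureReal_nonneg
  have hNr : (0 : ℝ) < Module.finrank K L := by exact_mod_cast hN0
  calc c * μ.real Set.univ ≤ (Nat.card X : ℝ) / Module.finrank K L * μ.real Set.univ := mul_le_mul_of_nonneg_right hcx hμ0
    _ ≤ μ.real C + ε := by
      rw [div_mul_eq_mul_div, div_le_iff₀ hNr]
      have h1 : (Nat.card X : ℝ) * μ.real Set.univ ≤ (Nat.card ((fun g : GalK K => (g : GalK K ⧸ U)) '' C) : ℝ) * μ.real Set.univ :=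
        mul_le_mul_of_nonneg_right (by exact_mod_cast hXc) hμ0
      refine (h1.trans hUc).trans (le_of_eq ?_)
      rw [hrank]

end Pool.Agent.CD
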